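import Mathlib
import Pool.Agent.H53.HitF

namespace Pool.Agent.Results.MP_c2475b_nt.ExactDegree

open Polynomial

/-- the exponent `w_{=n}(ζ)`, as an extended real number -/
noncomputable def wEq (n : ℕ) (ζ : ℝ) : EReal :=
  sSup ((fun w : ℝ => (w : EReal)) '' {w : ℝ | ∀ X₀ : ℝ, ∃ X : ℝ, X₀ ≤ X ∧ 1 ≤ X ∧
    ∃ P : ℤ[X], Irreducible P ∧ P.natDegree = n ∧ (∀ i, |(P.coeff i : ℝ)| ≤ X) ∧
      0 < |aeval ζ P| ∧ |aeval ζ P| ≤ X ^ (-w)})

theorem result : ∀ n : ℕ, 1 ≤ n → ∀ ζ : ℝ, Transcendental ℚ ζ → ((n : ℝ) : EReal) ≤ wEq n ζ := by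
  intro n hn ζ hζ
  have hζ' : Transcendental ℤ ζ := fun h => hζ (h.extendScalars (RingHom.injective_int _))
  refine EReal.ge_of_forall_gt_iff_ge.mp fun z hz => ?_
  have hz' : max z 0 < n := max_lt (EReal.coe_lt_coe_iff.mp hz) (by exact_mod_cast hn)
  refine le_trans (EReal.coe_le_coe_iff.mpr (le_max_left z 0)) (le_sSup ⟨max z 0, fun X₀ => ?_, rfl⟩)
  obtain ⟨X, h1, h2⟩ := Filter.frequently_atTop.mp
    (Pool.Agent.H53.HitF.main hζ' n hn _ (le_max_right _ _) hz') (max X₀ 1)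
  exact ⟨X, (le_max_left _ _).trans h1, (le_max_right _ _).trans h1, h2⟩

end Pool.Agent.Results.MP_c2475b_nt.ExactDegree
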